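import Pool.Agent.Helper74.DR.St

/-!
# Project DR (MP_26f0da_lc), module CFP: `PD T` is context-free
-/

set_option autoImplicit false

namespace Pool.Agent.Helper62.DR

open Pool.Agent.Helper74.DR

variable {T : Type}

/-- the pairs of letters which can be completed to matching brackets -/
def Mt (a b : Option (T × Bool)) : Prop :=
  ∃ t, (a = none ∨ a = some (t, true)) ∧ (b = none ∨ b = some (t, false))

/-- the rule `S → a S b S` -/
def rl (a b : Option (T × Bool)) : ContextFreeRule (Option (T × Bool)) Unit :=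
  ⟨(), [Symbol.terminal a, Symbol.nonterminal (), Symbol.terminal b, Symbol.nonterminal ()]⟩

/-- all rules -/
def Rl (T : Type) : Set (ContextFreeRule (Option (T × Bool)) Unit) :=
  {r | r = ⟨(), []⟩ ∨ ∃ a b, Mt a b ∧ r = rl a b}

theorem rl_finite (T : Type) [Finite T] : (Rl T).Finite := by
  refine Set.Finite.subset (Set.Finite.insert (⟨(), []⟩ : ContextFreeRule (Option (T × Bool)) Unit)
    (Set.finite_range
      (fun p : Option (T × Bool) × Option (T × Bool) => rl p.1 p.2))) ?_
  rintro r (h | ⟨a, b, -, h⟩)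
  · exact Or.inl h
  · exact Or.inr ⟨(a, b), h.symm⟩

/-- the grammar -/
noncomputable def gr (T : Type) [Finite T] : ContextFreeGrammar (Option (T × Bool)) where
  NT := Unit
  initial := ()
  rules := (rl_finite T).toFinset

theorem mem_gr (T : Type) [Finite T] (r : ContextFreeRule (Option (T × Bool)) Unit) :
    r ∈ (gr T).rules ↔ r ∈ Rl T := by
  show r ∈ (rl_finite T).toFinset ↔ _
  exact Set.Finite.mem_toFinset _

theorem pd_nil : ([] : List (Option (T × Bool))) ∈ PD T := ⟨[], Dyck.nil, List.Forall₂.nil⟩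

theorem pd_wrap (a b : Option (T × Bool)) (u v : List (Option (T × Bool))) (h : Mt a b)
    (hu : u ∈ PD T) (hv : v ∈ PD T) : a :: (u ++ b :: v) ∈ PD T := by
  obtain ⟨t, ha, hb⟩ := h
  obtain ⟨u', hu1, hu2⟩ := hu
  obtain ⟨v', hv1, hv2⟩ := hv
  exact ⟨_, Dyck.wrap t u' v' hu1 hv1,
    List.Forall₂.cons ha (List.rel_append hu2 (List.Forall₂.cons hb hv2))⟩

/-- joining a tree of a nonterminal with a forest -/
theorem pr_join {α : Type} {g : ContextFreeGrammar α} {X : g.NT} {n m : ℕ} {u v : List α}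
    {s : List (Symbol α g.NT)} (h : Pr g n [Symbol.nonterminal X] u) (h' : Pr g m s v) :
    ∃ k, Pr g k (Symbol.nonterminal X :: s) (u ++ v) := by
  cases h with
  | nont r s' u₁ v₁ n₁ m₁ hr h1 h2 =>
    cases h2
    rw [List.append_nil]
    exact ⟨_, Pr.nont r s u₁ v n₁ m hr h1 h'⟩

theorem dyck_pr [Finite T] (w' : List (T × Bool)) (h : Dyck w') :
    ∀ w : List (Option (T × Bool)), List.Forall₂ (fun o b => o = none ∨ o = some b) w w' →
      ∃ n, Pr (gr T) n [Symbol.nonterminal ()] w := by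
  induction h with
  | nil =>
    intro w hw
    rw [List.forall₂_nil_right_iff] at hw
    subst hw
    exact ⟨_, Pr.nont (⟨(), []⟩ : ContextFreeRule (Option (T × Bool)) Unit) [] [] [] 0 0
      ((mem_gr T _).2 (Or.inl rfl)) Pr.nil Pr.nil⟩
  | wrap t u v _ _ ihu ihv =>
    intro w hw
    rw [List.forall₂_cons_right_iff] at hw
    obtain ⟨a, w₀, ha, hw0, rfl⟩ := hw
    have h1 := List.forall₂_take_append w₀ u ((t, false) :: v) hw0
    have h2 := List.forall₂_drop_append w₀ u ((t, false) :: v) hw0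
    rw [List.forall₂_cons_right_iff] at h2
    obtain ⟨b, w₂, hb, hw2, he⟩ := h2
    obtain ⟨n₁, h3⟩ := ihu _ h1
    obtain ⟨n₂, h4⟩ := ihv _ hw2
    have e : w₀ = w₀.take u.length ++ b :: w₂ := by rw [← he, List.take_append_drop]
    generalize w₀.take u.length = w₁ at h3 e
    subst e
    obtain ⟨k₁, h5⟩ := pr_join h4 (Pr.nil (g := gr T))
    obtain ⟨k₂, h6⟩ := pr_join h3 (Pr.term b _ _ _ h5)
    have h7 := Pr.term a _ _ _ h6
    have h8 := Pr.nont (g := gr T) (rl a b) [] _ [] _ 0
      ((mem_gr T _).2 (Or.inr ⟨a, b, ⟨t, ha, hb⟩, rfl⟩)) h7 Pr.nil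
    rw [List.append_nil, List.append_nil] at h8
    exact ⟨_, h8⟩

/-- words derived from a list of symbols -/
def Sub : List (Symbol (Option (T × Bool)) Unit) → List (Option (T × Bool)) → Prop
  | [], w => w = []
  | Symbol.terminal a :: s, w => ∃ w₁, w = a :: w₁ ∧ Sub s w₁
  | Symbol.nonterminal _ :: s, w => ∃ u v, w = u ++ v ∧ u ∈ PD T ∧ Sub s v

theorem pr_sub [Finite T] (n : ℕ) (s : List (Symbol (Option (T × Bool)) (gr T).NT))
    (w : List (Option (T × Bool))) (h : Pr (gr T) n s w) : Sub s w := by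
  induction h with
  | nil => exact rfl
  | term a s w n _ ih => exact ⟨w, rfl, ih⟩
  | nont r s u v n m hr _ _ ih1 ih2 =>
    refine ⟨u, v, rfl, ?_, ih2⟩
    rcases (mem_gr T r).1 hr with h | ⟨a, b, hab, h⟩
    · subst h
      have h1 : u = [] := ih1
      rw [h1]
      exact pd_nil
    · subst h
      obtain ⟨w₁, rfl, u₁, v₁, rfl, hu, w₂, rfl, u₂, v₂, rfl, hv, h2⟩ := ih1
      have h3 : v₂ = [] := h2
      subst h3
      rw [List.append_nil]
      exact pd_wrap a b u₁ u₂ hab hu hv

theorem hCFP (hPRS : StPRS) : StCFP := by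
  intro T _
  refine ⟨gr T, fun w => ?_⟩
  rw [ContextFreeGrammar.mem_language_iff, hPRS]
  constructor
  · rintro ⟨n, h⟩
    obtain ⟨u, v, rfl, hu, hv⟩ := pr_sub n _ w h
    have h1 : v = [] := hv
    rw [h1, List.append_nil]
    exact hu
  · rintro ⟨w', h1, h2⟩
    exact dyck_pr w' h1 w h2

end Pool.Agent.Helper62.DR
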